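import Pool.Agent.R501.LP1

/-!
# From a modulus which is bad for the least primes to a bad value of the variance
-/

set_option autoImplicit false

namespace Pool.Agent.K3h37.LM

open Finset
open Pool.Agent.TH894.PV (G)
open Pool.Agent.R501.LP (LpG LpG0 lpg_iff lpg_of_var)

/-- A large modulus without the property for the least primes has a bad value of the variance. -/
theorem bad_x (A : ℕ) (ε : ℝ) (hε : 0 < ε) (hε1 : ε ≤ 1) : ∃ Q₀ : ℕ, 3 ≤ Q₀ ∧ ∀ Q : ℕ, Q₀ ≤ Q → ¬ LpG ε A Q →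
    ∃ x : ℝ, (Q : ℝ) ≤ x ∧ x ≤ Q * Real.log Q ^ A ∧ ¬ |G x Q - x * Real.log Q| ≤ ε / 4 * (x * Real.log Q) := by
  obtain ⟨Q₀, h⟩ := lpg_of_var A ε hε hε1
  refine ⟨Q₀ + 3, by omega, fun Q hQ hbad => ?_⟩
  by_contra hcon
  push Not at hcon
  apply hbad
  rw [← lpg_iff ε A Q (by omega)]
  exact h Q (by omega) fun x h1 h2 => hcon x h1 h2

/-- `(log Q) ^ A ≤ (log N) ^ (A + 1)` for `Q ≤ C N`, `N` large. -/
theorem log_pow_le (C A : ℕ) : ∃ N₀ : ℕ, 3 ≤ N₀ ∧ ∀ N : ℕ, N₀ ≤ N → ∀ Q : ℕ, 3 ≤ Q → Q ≤ C * N →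
    Real.log Q ^ A ≤ Real.log N ^ (A + 1) := by
  -- `log N ≥ 2 ^ A` and `log (C N) ≤ 2 log N`
  obtain ⟨M, hM⟩ : ∃ M : ℕ, Real.exp (2 ^ A) ≤ M := exists_nat_ge _
  refine ⟨M + C + 3, by omega, fun N hN Q hQ3 hQ => ?_⟩
  have hN0 : (0 : ℝ) < N := by exact_mod_cast (by omega : 0 < N)
  have hQ0 : (0 : ℝ) < Q := by exact_mod_cast (by omega : 0 < Q)
  have h1 : (2 : ℝ) ^ A ≤ Real.log N := by
    rw [Real.le_log_iff_exp_le hN0]
    exact hM.trans (by exact_mod_cast (by omega : M ≤ N))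
  have h2 : Real.log Q ≤ 2 * Real.log N := by
    have e1 : (Q : ℝ) ≤ (N : ℝ) ^ 2 := by
      have : Q ≤ N * N := hQ.trans (Nat.mul_le_mul_right _ (by omega))
      rw [pow_two]
      exact_mod_cast this
    have e2 := Real.log_le_log hQ0 e1
    rw [Real.log_pow] at e2
    exact_mod_cast e2
  have h3 : 0 ≤ Real.log Q := Real.log_natCast_nonneg _
  have h4 : 0 ≤ Real.log N := le_trans (by positivity) h1
  calc Real.log Q ^ A ≤ (2 * Real.log N) ^ A := pow_le_pow_left₀ h3 h2 _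
    _ = 2 ^ A * Real.log N ^ A := mul_pow _ _ _
    _ ≤ Real.log N * Real.log N ^ A := mul_le_mul_of_nonneg_right h1 (by positivity)
    _ = _ := by ring

/-- `Q₀ < N / (log N) ^ A` for large `N`. -/
theorem large_of (Q₀ A : ℕ) : ∃ N₀ : ℕ, ∀ N : ℕ, N₀ ≤ N → ∀ Q : ℤ, (N : ℝ) ≤ (Q : ℝ) * Real.log N ^ A →
    Q₀ ≤ Q.toNat ∧ 0 < Q := by
  have h : ∀ᶠ N : ℕ in Filter.atTop, (Q₀ : ℝ) * Real.log N ^ A < N := by
    have h1 : (fun x : ℝ => Real.log x ^ A) =o[Filter.atTop] (fun x : ℝ => x) := Real.isLittleO_pow_log_id_atTop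
    have h2 := (h1.bound (show (0 : ℝ) < 1 / (2 * (Q₀ + 1)) by positivity))
    have h3 := tendsto_natCast_atTop_atTop (R := ℝ) |>.eventually h2
    filter_upwards [h3, Filter.eventually_ge_atTop 3] with N hN hN3
    have hN0 : (0 : ℝ) < N := by exact_mod_cast (by omega : 0 < N)
    have hl : 0 ≤ Real.log (N : ℝ) := Real.log_natCast_nonneg _
    rw [Real.norm_of_nonneg (by positivity), Real.norm_of_nonneg hN0.le] at hN
    calc (Q₀ : ℝ) * Real.log N ^ A ≤ (Q₀ + 1) * Real.log N ^ A := by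
          apply mul_le_mul_of_nonneg_right _ (by positivity); linarith
      _ ≤ (Q₀ + 1) * (1 / (2 * (Q₀ + 1)) * N) := mul_le_mul_of_nonneg_left hN (by positivity)
      _ = N / 2 := by field_simp
      _ < N := by linarith
  obtain ⟨N₀, h0⟩ := Filter.eventually_atTop.1 h
  refine ⟨N₀ + 3, fun N hN Q hQ => ?_⟩
  have h1 := h0 N (by omega)
  have hN0 : (0 : ℝ) < N := by exact_mod_cast (by omega : 0 < N)
  have hl : 0 ≤ Real.log (N : ℝ) := Real.log_natCast_nonneg _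
  have hQ0 : 0 < Q := by
    by_contra hcon
    push Not at hcon
    have e1 : (Q : ℝ) ≤ 0 := by exact_mod_cast hcon
    have e2 : (Q : ℝ) * Real.log N ^ A ≤ 0 := mul_nonpos_of_nonpos_of_nonneg e1 (by positivity)
    linarith
  refine ⟨?_, hQ0⟩
  by_contra hcon
  push Not at hcon
  have e1 : ((Q.toNat : ℕ) : ℝ) = (Q : ℝ) := by
    have : ((Q.toNat : ℕ) : ℤ) = Q := Int.toNat_of_nonneg hQ0.le
    exact_mod_cast this
  have e2 : (Q : ℝ) ≤ Q₀ := by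
    rw [← e1]
    exact_mod_cast hcon.le
  have e3 : (Q : ℝ) * Real.log N ^ A ≤ Q₀ * Real.log N ^ A := mul_le_mul_of_nonneg_right e2 (by positivity)
  linarith

/-- `Q₀ ≤ a` if `X ≤ a (log X) ^ A`, `X` large. -/
theorem large_real (Q₀ A : ℕ) : ∃ X₀ : ℝ, 1 ≤ X₀ ∧ ∀ X : ℝ, X₀ ≤ X → ∀ a : ℕ, X ≤ (a : ℝ) * Real.log X ^ A → Q₀ ≤ a := by
  have h : ∀ᶠ X : ℝ in Filter.atTop, (Q₀ : ℝ) * Real.log X ^ A < X := by
    have h1 : (fun x : ℝ => Real.log x ^ A) =o[Filter.atTop] (fun x : ℝ => x) := Real.isLittleO_pow_log_id_atTop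
    have h2 := (h1.bound (show (0 : ℝ) < 1 / (2 * (Q₀ + 1)) by positivity))
    filter_upwards [h2, Filter.eventually_ge_atTop 3] with X hX hX3
    have hX0 : (0 : ℝ) < X := by linarith
    have hl : 0 ≤ Real.log X := Real.log_nonneg (by linarith)
    rw [Real.norm_of_nonneg (by positivity), Real.norm_of_nonneg hX0.le] at hX
    calc (Q₀ : ℝ) * Real.log X ^ A ≤ (Q₀ + 1) * Real.log X ^ A := by
          apply mul_le_mul_of_nonneg_right _ (by positivity); linarith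
      _ ≤ (Q₀ + 1) * (1 / (2 * (Q₀ + 1)) * X) := mul_le_mul_of_nonneg_left hX (by positivity)
      _ = X / 2 := by field_simp
      _ < X := by linarith
  obtain ⟨X₀, h0⟩ := Filter.eventually_atTop.1 h
  refine ⟨max X₀ 1, le_max_right _ _, fun X hX a ha => ?_⟩
  have h1 := h0 X ((le_max_left _ _).trans hX)
  have hl : 0 ≤ Real.log X := Real.log_nonneg ((le_max_right _ _).trans hX)
  by_contra hcon
  push Not at hcon
  have e2 : (a : ℝ) ≤ Q₀ := by exact_mod_cast hcon.le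
  have e3 : (a : ℝ) * Real.log X ^ A ≤ Q₀ * Real.log X ^ A := mul_le_mul_of_nonneg_right e2 (by positivity)
  linarith

/-- `Q₀ ≤ a` if `g ^ K ≤ a K ^ A`, `K` large. -/
theorem large_pow (g : ℕ) (hg : 2 ≤ g) (Q₀ A : ℕ) : ∃ K₀ : ℕ, ∀ K : ℕ, K₀ ≤ K → ∀ a : ℕ, g ^ K ≤ a * K ^ A → Q₀ ≤ a := by
  have hg1 : (1 : ℝ) < g := by exact_mod_cast (by omega : 1 < g)
  have h := (isLittleO_pow_const_const_pow_of_one_lt (R := ℝ) A hg1).bound
    (show 0 < 1 / (2 * ((Q₀ + 1 : ℕ) : ℝ)) by positivity)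
  obtain ⟨x0, hx0⟩ := Filter.eventually_atTop.1 h
  refine ⟨x0 + 1, fun K hK a ha => ?_⟩
  have h3 := hx0 K (by omega)
  have hbk : (0 : ℝ) < (g : ℝ) ^ K := by positivity
  rw [Real.norm_of_nonneg (by positivity), Real.norm_of_nonneg hbk.le] at h3
  by_contra hcon
  push Not at hcon
  have e1 : (g : ℝ) ^ K ≤ a * (K : ℝ) ^ A := by exact_mod_cast ha
  have e2 : (a : ℝ) * (K : ℝ) ^ A ≤ ((Q₀ + 1 : ℕ) : ℝ) * (K : ℝ) ^ A :=
    mul_le_mul_of_nonneg_right (by exact_mod_cast (by omega : a ≤ Q₀ + 1)) (by positivity)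
  have e3 : ((Q₀ + 1 : ℕ) : ℝ) * (K : ℝ) ^ A ≤ (g : ℝ) ^ K / 2 := by
    calc ((Q₀ + 1 : ℕ) : ℝ) * (K : ℝ) ^ A ≤ ((Q₀ + 1 : ℕ) : ℝ) * (1 / (2 * ((Q₀ + 1 : ℕ) : ℝ)) * (g : ℝ) ^ K) :=
          mul_le_mul_of_nonneg_left h3 (by positivity)
      _ = (g : ℝ) ^ K / 2 := by field_simp
  linarith

end Pool.Agent.K3h37.LM
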